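import Pool.Agent.H648.Q.Defs2

/-!
# The character `(D / ·)` modulo `A` (task CHI)
-/

set_option autoImplicit false

namespace Pool.Agent.H282.Q648

open Pool.Agent.H648.Q2

section

variable {D : ℤ} {A : ℕ}

theorem A_even (h4 : 4 * D ∣ (A : ℤ)) : 4 ∣ A := by
  have : (4 : ℤ) ∣ (A : ℤ) := (Dvd.intro _ rfl).trans h4
  exact_mod_cast this

theorem four_natAbs (h4 : 4 * D ∣ (A : ℤ)) : 4 * D.natAbs ∣ A := by
  have h := Int.natAbs_dvd_natAbs.2 h4
  rwa [Int.natAbs_mul, Int.natAbs_natCast] at h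

theorem odd_of_cop (h4 : 4 * D ∣ (A : ℤ)) {n : ℕ} (hn : Nat.Coprime n A) : Odd n := by
  rw [← Nat.not_even_iff_odd]
  intro he
  have h2 : 2 ∣ A := (by norm_num : (2 : ℕ) ∣ 4).trans (A_even h4)
  have h3 := Nat.dvd_gcd he.two_dvd h2
  rw [hn] at h3
  omega

theorem jac_mod (h4 : 4 * D ∣ (A : ℤ)) {n : ℕ} (hn : Nat.Coprime n A) :
    jacobiSym D (n % A) = jacobiSym D n := by
  have hn' : Nat.Coprime (n % A) A := by
    rw [Nat.coprime_iff_gcd_eq_one, ← Nat.gcd_rec, Nat.gcd_comm]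
    exact hn
  rw [jacobiSym.mod_right D (odd_of_cop h4 hn'), jacobiSym.mod_right D (odd_of_cop h4 hn),
    Nat.mod_mod_of_dvd _ (four_natAbs h4)]

theorem ne_zero_of_cop (h4 : 4 * D ∣ (A : ℤ)) {n : ℕ} (hn : Nat.Coprime n A) : n ≠ 0 := by
  rintro rfl
  have := (odd_of_cop h4 hn).pos
  omega

theorem toNat_cast (hA : 1 ≤ A) (x : ℤ) : (((x % (A : ℤ)).toNat : ℕ) : ℤ) = x % (A : ℤ) :=
  Int.toNat_of_nonneg (Int.emod_nonneg _ (by omega))

theorem gcd_emod (x : ℤ) (A : ℕ) : Int.gcd (x % (A : ℤ)) A = Int.gcd x A := by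
  conv_rhs => rw [← Int.emod_add_mul_ediv x (A : ℤ)]
  rw [Int.gcd_add_mul_left_left]

theorem cop_toNat (hA : 1 ≤ A) {x : ℤ} (hx : Int.gcd x A = 1) :
    Nat.Coprime (x % (A : ℤ)).toNat A := by
  have h1 : Int.gcd (((x % (A : ℤ)).toNat : ℕ) : ℤ) (A : ℤ) = 1 := by
    rw [toNat_cast hA, gcd_emod, hx]
  rwa [Int.gcd_natCast_natCast] at h1

theorem chi_of_cop {x : ℤ} (hx : Int.gcd x A = 1) :
    chi D A x = jacobiSym D (x % (A : ℤ)).toNat := by
  unfold chi
  rw [if_pos hx]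

theorem chi_nat (h4 : 4 * D ∣ (A : ℤ)) {n : ℕ} (hn : Nat.Coprime n A) :
    chi D A n = jacobiSym D n := by
  have hx : Int.gcd (n : ℤ) A = 1 := by
    rw [Int.gcd_natCast_natCast]
    exact hn
  rw [chi_of_cop hx]
  have h1 : ((n : ℤ) % (A : ℤ)).toNat = n % A := by
    rw [← Int.natCast_mod, Int.toNat_natCast]
  rw [h1, jac_mod h4 hn]

theorem jac_one {D : ℤ} (n : ℕ) (hn0 : n ≠ 0) (hD : ∀ l : ℕ, l.Prime → l ∣ n → ¬ (l : ℤ) ∣ D)
    (h : ∀ l : ℕ, l.Prime → l ∣ n → ∃ x : ZMod l, x * x = (D : ZMod l)) :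
    jacobiSym D n = 1 := by
  induction n using Nat.recOnMul with
  | zero => exact absurd rfl hn0
  | one => exact jacobiSym.one_right D
  | prime p hp =>
    have : Fact p.Prime := ⟨hp⟩
    rw [← jacobiSym.legendreSym.to_jacobiSym]
    have h0 : ((D : ℤ) : ZMod p) ≠ 0 := by
      rw [Ne, ZMod.intCast_zmod_eq_zero_iff_dvd]
      exact hD p hp dvd_rfl
    rw [legendreSym.eq_one_iff p h0]
    obtain ⟨x, hx⟩ := h p hp dvd_rfl
    exact ⟨x, hx.symm⟩
  | mul a b ha hb =>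
    have ha0 : a ≠ 0 := left_ne_zero_of_mul hn0
    have hb0 : b ≠ 0 := right_ne_zero_of_mul hn0
    have : NeZero a := ⟨ha0⟩
    have : NeZero b := ⟨hb0⟩
    rw [jacobiSym.mul_right, ha ha0 (fun l hl hd => hD l hl (hd.mul_right b))
      (fun l hl hd => h l hl (hd.mul_right b)), hb hb0 (fun l hl hd => hD l hl (hd.mul_left a))
      (fun l hl hd => h l hl (hd.mul_left a)), one_mul]

end

theorem chi_prop : S_CHI := by
  intro D A hD hA h4
  refine ⟨⟨?_, ?_, ?_, ?_⟩, fun n hn => chi_nat h4 hn, ?_⟩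
  · intro x y
    by_cases hx : Int.gcd x A = 1
    · by_cases hy : Int.gcd y A = 1
      · have hxy : Int.gcd (x * y) A = 1 := by
          rw [← Int.isCoprime_iff_gcd_eq_one] at hx hy ⊢
          exact hx.mul_left hy
        have ca := cop_toNat hA hx
        have cb := cop_toNat hA hy
        have cab : Nat.Coprime ((x % (A : ℤ)).toNat * (y % (A : ℤ)).toNat) A := ca.mul_left cb
        have e1 : ((x * y) % (A : ℤ)).toNat =
            ((x % (A : ℤ)).toNat * (y % (A : ℤ)).toNat) % A := by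
          have : ((((x * y) % (A : ℤ)).toNat : ℕ) : ℤ) =
              ((((x % (A : ℤ)).toNat * (y % (A : ℤ)).toNat) % A : ℕ) : ℤ) := by
            rw [toNat_cast hA, Int.natCast_mod, Nat.cast_mul, toNat_cast hA, toNat_cast hA,
              ← Int.mul_emod]
          exact_mod_cast this
        rw [chi_of_cop hxy, chi_of_cop hx, chi_of_cop hy, e1, jac_mod h4 cab]
        have : NeZero (x % (A : ℤ)).toNat := ⟨ne_zero_of_cop h4 ca⟩
        have : NeZero (y % (A : ℤ)).toNat := ⟨ne_zero_of_cop h4 cb⟩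
        rw [jacobiSym.mul_right]
      · have hxy : Int.gcd (x * y) A ≠ 1 := by
          intro h
          rw [← Int.isCoprime_iff_gcd_eq_one] at h
          exact hy (Int.isCoprime_iff_gcd_eq_one.1 h.of_mul_left_right)
        unfold chi
        rw [if_neg hxy, if_neg hy, mul_zero]
    · have hxy : Int.gcd (x * y) A ≠ 1 := by
        intro h
        rw [← Int.isCoprime_iff_gcd_eq_one] at h
        exact hx (Int.isCoprime_iff_gcd_eq_one.1 h.of_mul_left_left)
      unfold chi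
      rw [if_neg hxy, if_neg hx, zero_mul]
  · intro x y hxy
    have e1 : x % (A : ℤ) = y % (A : ℤ) := (Int.emod_eq_emod_iff_emod_sub_eq_zero.2
      (Int.emod_eq_zero_of_dvd hxy))
    have e2 : Int.gcd x A = Int.gcd y A := by
      rw [← gcd_emod x, ← gcd_emod y, e1]
    unfold chi
    rw [e1, e2]
  · intro x hx
    rw [chi_of_cop hx]
    refine jacobiSym.eq_one_or_neg_one ?_
    have h1 := cop_toNat hA hx
    have h2 : IsCoprime (((x % (A : ℤ)).toNat : ℕ) : ℤ) (A : ℤ) := Nat.isCoprime_iff_coprime.2 h1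
    have h3 : D ∣ (A : ℤ) := (Dvd.intro_left _ rfl).trans h4
    exact Int.isCoprime_iff_gcd_eq_one.1 (h2.of_isCoprime_of_dvd_right h3).symm
  · intro x hx
    unfold chi
    rw [if_neg hx]
  · intro n hn h
    rw [chi_nat h4 hn]
    refine jac_one n (ne_zero_of_cop h4 hn) ?_ h
    intro l hl hln hlD
    have h3 : D ∣ (A : ℤ) := (Dvd.intro_left _ rfl).trans h4
    have h5 : l ∣ A := by exact_mod_cast hlD.trans h3
    have h6 := Nat.dvd_gcd hln h5
    rw [hn] at h6
    exact hl.one_lt.ne' (Nat.dvd_one.1 h6)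

end Pool.Agent.H282.Q648
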